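import Pool.Agent.Q64.GL.Fin
import Pool.Agent.Q150.GL.MAX
import Pool.Agent.Q176.GL.TMM
import Pool.Agent.Q90.GL.TMB
import Pool.Agent.Q224.GL.Rdf
import Pool.Agent.Q224.GL.Ww
import Pool.Agent.Q224.GL.Ab
import Pool.Agent.Q75.GL.POI
import Pool.Agent.Q111.GL.HAR
import Pool.Agent.Q224.GL.Pk
import Pool.Agent.Q150.GL.BEL1
import Pool.Agent.Q75.GL.GRN
import Pool.Agent.Q95.GL.G2
import Pool.Agent.Q208.GL.TR
import Pool.Agent.Q208.GL.LOW
import Pool.Agent.Q208.GL.NEC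

/-!
# MP_842e08_an : the weights of the weighted `g*_λ` inequality are exactly `A_p ∩ B_{λp/2}`

For `1 < λ ≤ 2` and `2/λ < p < 2` the inequality `(∗)` holds for a weight `U` if and only if
`U ∈ A_p ∩ B_{λp/2}`.  Both directions are proved here from Mathlib.  The second clause says that
`(∗)` is not about junk values: for such a weight, not a.e. zero, the Poisson integral of every
`f` with finite right-hand side converges.
-/

set_option autoImplicit false

open MeasureTheory Set Filter Topology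
open scoped ENNReal NNReal Real

namespace Pool.Agent.Results.MP_842e08_an.WeightCharacterisation

open Pool.Agent.Q64.GL

/-- `(∗)` holds iff `U ∈ A_p ∩ B_{λp/2}`. -/
theorem result (lam p : ℝ) (hl1 : 1 < lam) (hl2 : lam ≤ 2) (hp1 : 2 / lam < p) (hp2 : p < 2)
    (U : ℝ → ℝ) (hU : IsWeight U) :
    (Star lam p U ↔ A p U ∧ B (lam * p / 2) U) ∧
    (Star lam p U → ¬ (U =ᵐ[volume] 0) → ∀ f : ℝ → ℝ, AEMeasurable f volume →
      ∫⁻ x, ENNReal.ofReal (|f x| ^ p * U x) < ∞ →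
      Integrable (fun x => f x / (1 + x ^ 2)) volume) := by
  have hTMM : S_TMM := Pool.Agent.Q176.GL.t_TMM
  have hTMB : S_TMB := Pool.Agent.Q90.GL.t_TMB Pool.Agent.Q150.GL.t_MAX
  have hRDF : S_RDF := Pool.Agent.Q224.GL.rdf hTMM
  have hPOI : S_POI := Pool.Agent.Q75.GL.poi
  have hHAR : S_HAR := Pool.Agent.Q111.GL.t_HAR hPOI
  have hL2 : S_L2 := t_L2 Pool.Agent.Q224.GL.ab hPOI hHAR Pool.Agent.Q224.GL.t_pk
    Pool.Agent.Q150.GL.t_BEL1 Pool.Agent.Q75.GL.grn
  have hG2 : S_G2 := Pool.Agent.Q95.GL.t_G2 hL2 hPOI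
  have hSUF : S_SUF := t_SUF hPOI hTMM hTMB hRDF Pool.Agent.Q224.GL.ww hG2
  exact final hSUF Pool.Agent.Q208.GL.t_TR
    (Pool.Agent.Q208.GL.t_NEC Pool.Agent.Q208.GL.t_LOW) lam p hl1 hl2 hp1 hp2 U hU

end Pool.Agent.Results.MP_842e08_an.WeightCharacterisation
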